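import Pool.Agent.Helper97.Tate.Goals

/-!
# FewPoints, packet TATE-CPA
-/

set_option autoImplicit false

namespace Pool.Agent.Helper31.Tate.CPA

open Pool.Agent.Helper97.Tate

theorem choose2 (n : ℕ) : 2 * (((n + 1).choose 2 : ℕ) : ℤ) = ((n : ℤ) + 1) * n := by
  induction n with
  | zero => simp
  | succ n ih =>
    have h : (n + 1 + 1).choose 2 = (n + 1) + (n + 1).choose 2 := by
      rw [Nat.choose_succ_succ' (n + 1) 1, Nat.choose_one_right]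
    rw [h]
    push_cast
    linear_combination ih

theorem t : S_CPA := by
  intro m d κ hm hd hκ hs
  have hj1 : 3 * min (d / 3) ((d - m 0) / 2) ≤ d := by omega
  have hj2 : 2 * min (d / 3) ((d - m 0) / 2) + m 0 ≤ d := by omega
  have e0 := hm (Nat.le_succ 0)
  have e1 := hm (Nat.le_succ 1)
  have e2 := hm (Nat.le_succ 2)
  have e3 := hm (Nat.le_succ 3)
  have e4 := hm (Nat.le_succ 4)
  have e5 := hm (Nat.le_succ 5)
  have e6 := hm (Nat.le_succ 6)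
  have e7 := hm (Nat.le_succ 7)
  simp only [Nat.succ_eq_add_one] at e0 e1 e2 e3 e4 e5 e6 e7
  norm_num at e0 e1 e2 e3 e4 e5 e6 e7
  have hj3 : m 8 ≤ min (d / 3) ((d - m 0) / 2) := by omega
  generalize min (d / 3) ((d - m 0) / 2) = j at hj1 hj2 hj3 ⊢
  have hd2 := choose2 (d + 1)
  have c0 := choose2 (m 0)
  have c1 := choose2 (m 1)
  have c2 := choose2 (m 2)
  have c3 := choose2 (m 3)
  have c4 := choose2 (m 4)
  have c5 := choose2 (m 5)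
  have c6 := choose2 (m 6)
  have c7 := choose2 (m 7)
  have c8 := choose2 (m 8)
  rw [show d + 1 + 1 = d + 2 from rfl] at hd2
  push_cast at hd2
  simp only [Finset.sum_range_succ, Finset.sum_range_zero, zero_add] at hs ⊢
  obtain ⟨b7, h7⟩ := Nat.exists_eq_add_of_le e7
  obtain ⟨b6, h6⟩ := Nat.exists_eq_add_of_le (e7.trans e6)
  obtain ⟨b5, h5⟩ := Nat.exists_eq_add_of_le ((e7.trans e6).trans e5)
  obtain ⟨b4, h4⟩ := Nat.exists_eq_add_of_le (((e7.trans e6).trans e5).trans e4)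
  obtain ⟨b3, h3⟩ := Nat.exists_eq_add_of_le ((((e7.trans e6).trans e5).trans e4).trans e3)
  obtain ⟨a, h2⟩ := Nat.exists_eq_add_of_le (((((e7.trans e6).trans e5).trans e4).trans e3).trans e2)
  obtain ⟨a2, h1⟩ := Nat.exists_eq_add_of_le e1
  obtain ⟨a1, h0⟩ := Nat.exists_eq_add_of_le e0
  obtain ⟨a0, hd0⟩ := Nat.exists_eq_add_of_le hd
  obtain ⟨j', hj'⟩ := Nat.exists_eq_add_of_le hj3
  have g7 : b7 ≤ a := by omega
  have g6 : b6 ≤ a := by omega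
  have g5 : b5 ≤ a := by omega
  have g4 : b4 ≤ a := by omega
  have g3 : b3 ≤ a := by omega
  have s7 : (b7 : ℤ) ^ 2 ≤ (a : ℤ) ^ 2 := by exact_mod_cast Nat.pow_le_pow_left g7 2
  have s6 : (b6 : ℤ) ^ 2 ≤ (a : ℤ) ^ 2 := by exact_mod_cast Nat.pow_le_pow_left g6 2
  have s5 : (b5 : ℤ) ^ 2 ≤ (a : ℤ) ^ 2 := by exact_mod_cast Nat.pow_le_pow_left g5 2
  have s4 : (b4 : ℤ) ^ 2 ≤ (a : ℤ) ^ 2 := by exact_mod_cast Nat.pow_le_pow_left g4 2
  have s3 : (b3 : ℤ) ^ 2 ≤ (a : ℤ) ^ 2 := by exact_mod_cast Nat.pow_le_pow_left g3 2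
  have hjj : 2 * j' ≤ a0 + a2 + 2 * a := by omega
  have hjj2 : (2 * (j' : ℤ)) ^ 2 ≤ ((a0 : ℤ) + a2 + 2 * a) ^ 2 := by
    exact_mod_cast Nat.pow_le_pow_left hjj 2
  have hsq : 0 ≤ ((j' : ℤ) - κ) ^ 2 := sq_nonneg _
  have hpos : (0 : ℤ) ≤ 3 * (a0 : ℤ) ^ 2 + 8 * (a0 * a1) + 14 * (a0 * a2) + 20 * (a0 * a) +
      8 * (a1 * a2) + 16 * (a1 * a) + 7 * (a2 : ℤ) ^ 2 + 28 * (a2 * a) := by positivity
  have z0 : (m 0 : ℤ) = m 8 + a + a2 + a1 := by rw [h0, h1, h2]; push_cast; ring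
  have z1 : (m 1 : ℤ) = m 8 + a + a2 := by rw [h1, h2]; push_cast; ring
  have z2 : (m 2 : ℤ) = m 8 + a := by rw [h2]; push_cast; ring
  have z3 : (m 3 : ℤ) = m 8 + b3 := by rw [h3]; push_cast; ring
  have z4 : (m 4 : ℤ) = m 8 + b4 := by rw [h4]; push_cast; ring
  have z5 : (m 5 : ℤ) = m 8 + b5 := by rw [h5]; push_cast; ring
  have z6 : (m 6 : ℤ) = m 8 + b6 := by rw [h6]; push_cast; ring
  have z7 : (m 7 : ℤ) = m 8 + b7 := by rw [h7]; push_cast; ring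
  have zj : (j : ℤ) = m 8 + j' := by rw [hj']; push_cast; ring
  have zd : (d : ℤ) = 3 * m 8 + a0 + a1 + 2 * a2 + 3 * a := by
    rw [hd0]; push_cast; rw [z0, z1, z2]; ring
  have zs : (κ : ℤ) + (m 0 + m 1 + m 2 + m 3 + m 4 + m 5 + m 6 + m 7 + m 8) = 3 * d := by
    exact_mod_cast hs
  have zκ : (κ : ℤ) = 3 * a0 + 2 * a1 + 4 * a2 + 6 * a - (b3 + b4 + b5 + b6 + b7) := by
    rw [z0, z1, z2, z3, z4, z5, z6, z7, zd] at zs
    linarith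
  have final : 2 * ((κ : ℤ) * (j + 1)) ≤ ((d : ℤ) + 1 + 1) * (d + 1) -
      (((m 0 : ℤ) + 1) * m 0 + ((m 1 : ℤ) + 1) * m 1 + ((m 2 : ℤ) + 1) * m 2 +
        ((m 3 : ℤ) + 1) * m 3 + ((m 4 : ℤ) + 1) * m 4 + ((m 5 : ℤ) + 1) * m 5 +
        ((m 6 : ℤ) + 1) * m 6 + ((m 7 : ℤ) + 1) * m 7 + ((m 8 : ℤ) + 1) * m 8) +
      (κ : ℤ) ^ 2 + κ - 2 := by
    rw [zκ] at hsq
    rw [z0, z1, z2, z3, z4, z5, z6, z7, zd, zj, zκ]
    linarith [hpos, s3, s4, s5, s6, s7, hjj2, hsq]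
  push_cast
  linarith

end Pool.Agent.Helper31.Tate.CPA
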