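import Pool.Agent.Helper31.Tate.CPA

/-!
# FewPoints, packet TATE-CPB
-/

set_option autoImplicit false

namespace Pool.Agent.Helper31.Tate.CPB

open Pool.Agent.Helper97.Tate Pool.Agent.Helper31.Tate.CPA

theorem t : S_CPB := by
  intro m d κ _ _ hs
  have hd2 := choose2 (d + 1)
  have c0 := choose2 (m 0)
  have c1 := choose2 (m 1)
  have c2 := choose2 (m 2)
  have c3 := choose2 (m 3)
  have c4 := choose2 (m 4)
  have c5 := choose2 (m 5)
  have c6 := choose2 (m 6)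
  have c7 := choose2 (m 7)
  have c8 := choose2 (m 8)
  rw [show d + 1 + 1 = d + 2 from rfl] at hd2
  push_cast at hd2
  have cs := sq_sum_le_card_mul_sum_sq (s := Finset.range 8) (f := fun i => (m i : ℤ) - m 8)
  simp only [Finset.sum_range_succ, Finset.sum_range_zero, zero_add, Finset.card_range] at hs cs ⊢
  push_cast at cs
  have zs : (κ : ℤ) + (m 0 + m 1 + m 2 + m 3 + m 4 + m 5 + m 6 + m 7 + m 8) = 3 * d := by
    exact_mod_cast hs
  have zκ : (κ : ℤ) = 3 * d - (m 0 + m 1 + m 2 + m 3 + m 4 + m 5 + m 6 + m 7 + m 8) := by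
    linarith
  have hsq := sq_nonneg (8 * ((d : ℤ) - 3 * m 8) - 3 * ((m 0 - m 8) + (m 1 - m 8) + (m 2 - m 8) +
    (m 3 - m 8) + (m 4 - m 8) + (m 5 - m 8) + (m 6 - m 8) + (m 7 - m 8)))
  have final : ((d : ℤ) + 1 + 1) * (d + 1) -
      (((m 0 : ℤ) + 1) * m 0 + ((m 1 : ℤ) + 1) * m 1 + ((m 2 : ℤ) + 1) * m 2 +
        ((m 3 : ℤ) + 1) * m 3 + ((m 4 : ℤ) + 1) * m 4 + ((m 5 : ℤ) + 1) * m 5 +
        ((m 6 : ℤ) + 1) * m 6 + ((m 7 : ℤ) + 1) * m 7 + ((m 8 : ℤ) + 1) * m 8) ≤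
      2 * (κ : ℤ) * m 8 + (κ : ℤ) ^ 2 + κ + 2 := by
    rw [zκ]
    linarith [cs, hsq]
  linarith

end Pool.Agent.Helper31.Tate.CPB
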