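import Pool.Agent.Helper97.Tate.Goals

/-!
# FewPoints, packet TATE-JJI
-/

set_option autoImplicit false

namespace Pool.Agent.Helper31.Tate.JJI

open Pool.Agent.Helper97.Tate

/-- the ideal of the power of `(s, t)` -/
def JJ (K : Type) [Field K] (M : ℕ) : Ideal (Polynomial (PowerSeries K)) where
  carrier := {p | ∀ α β : ℕ, α + β < M → PowerSeries.coeff α (p.coeff β) = 0}
  add_mem' := by
    intro a b ha hb α β h
    rw [Polynomial.coeff_add, map_add, ha α β h, hb α β h, add_zero]
  zero_mem' := by
    intro α β _
    rw [Polynomial.coeff_zero, map_zero]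
  smul_mem' := by
    intro c p hp α β h
    rw [smul_eq_mul, Polynomial.coeff_mul, map_sum]
    refine Finset.sum_eq_zero fun x hx => ?_
    rw [PowerSeries.coeff_mul]
    refine Finset.sum_eq_zero fun y hy => ?_
    rw [Finset.HasAntidiagonal.mem_antidiagonal] at hx hy
    rw [hp y.2 x.2 (by omega), mul_zero]

theorem t : S_JJI := by
  intro K _ M
  have key : (Ideal.span {Polynomial.C PowerSeries.X, Polynomial.X} :
      Ideal (Polynomial (PowerSeries K))) ^ M ≤ JJ K M := by
    induction M with
    | zero =>
      intro p _ α β h
      omega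
    | succ M ih =>
      rw [Submodule.pow_succ, Ideal.mul_le]
      intro r hr s hs
      have hr' := ih hr
      obtain ⟨a, b, rfl⟩ := Ideal.mem_span_pair.1 hs
      have h1 : r * Polynomial.C PowerSeries.X ∈ JJ K (M + 1) := by
        intro α β h
        rw [Polynomial.coeff_mul_C]
        rcases α with _ | α
        · rw [PowerSeries.coeff_zero_mul_X]
        · rw [PowerSeries.coeff_succ_mul_X]
          exact hr' α β (by omega)
      have h2 : r * Polynomial.X ∈ JJ K (M + 1) := by
        intro α β h
        rcases β with _ | β
        · rw [Polynomial.coeff_mul_X_zero, map_zero]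
        · rw [Polynomial.coeff_mul_X]
          exact hr' α β (by omega)
      have h3 : r * (a * Polynomial.C PowerSeries.X + b * Polynomial.X) =
          a * (r * Polynomial.C PowerSeries.X) + b * (r * Polynomial.X) := by ring
      rw [h3]
      exact (JJ K (M + 1)).add_mem ((JJ K (M + 1)).mul_mem_left a h1)
        ((JJ K (M + 1)).mul_mem_left b h2)
  intro p hp
  exact key hp

end Pool.Agent.Helper31.Tate.JJI
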